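import Pool.Agent.W745.RW.Stm

set_option autoImplicit false
open MeasureTheory Filter Topology Complex
open scoped ContDiff

namespace Pool.Agent.W379.RW.T
open Pool.Agent.W745.RW

lemma cont_mul {B : Set ℂ} (hB : IsOpen B) {ψ X : ℂ → ℂ} (hψ : Continuous ψ)
    (hs : tsupport ψ ⊆ B) (hX : ContinuousOn X B) : Continuous (fun z => ψ z * X z) := by
  refine ContinuousOn.continuous_of_tsupport_subset (s := B) (hψ.continuousOn.mul hX) hB ?_
  exact (tsupport_mul_subset_left (f := ψ) (g := X)).trans hs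

lemma int_mul {B : Set ℂ} (hB : IsOpen B) {ψ X : ℂ → ℂ} (hψ : Continuous ψ)
    (hc : HasCompactSupport ψ) (hs : tsupport ψ ⊆ B) (hX : ContinuousOn X B) :
    Integrable (fun z => ψ z * X z) :=
  (cont_mul hB hψ hs hX).integrable_of_hasCompactSupport hc.mul_right

lemma four (x y z w : ℝ) (hx : 0 ≤ x) (hy : 0 ≤ y) (hz : 0 ≤ z) (hw : 0 ≤ w) :
    x * y * z * w ≤ x ^ 4 + y ^ 4 + z ^ 4 + w ^ 4 := by
  nlinarith [sq_nonneg (x ^ 2 - y ^ 2), sq_nonneg (z ^ 2 - w ^ 2), sq_nonneg (x * y - z * w),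
    sq_nonneg (x ^ 2 + y ^ 2), sq_nonneg (z ^ 2 + w ^ 2), sq_nonneg (x * y), sq_nonneg (z * w),
    sq_nonneg (x ^ 2), sq_nonneg (y ^ 2), sq_nonneg (z ^ 2), sq_nonneg (w ^ 2)]

lemma fd4 {f1 f2 f3 f4 : ℂ → ℂ} {z : ℂ} (h1 : DifferentiableAt ℝ f1 z)
    (h2 : DifferentiableAt ℝ f2 z) (h3 : DifferentiableAt ℝ f3 z) (h4 : DifferentiableAt ℝ f4 z)
    (v : ℂ) :
    fderiv ℝ (fun z => f1 z * f2 z * f3 z * f4 z) z v =
      fderiv ℝ f1 z v * f2 z * f3 z * f4 z + f1 z * fderiv ℝ f2 z v * f3 z * f4 z +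
      f1 z * f2 z * fderiv ℝ f3 z v * f4 z + f1 z * f2 z * f3 z * fderiv ℝ f4 z v := by
  have e := (((h1.hasFDerivAt.mul h2.hasFDerivAt).mul h3.hasFDerivAt).mul h4.hasFDerivAt).fderiv
  have e' := congrArg (fun L => L v) e
  simp only [ContinuousLinearMap.add_apply, ContinuousLinearMap.smul_apply, smul_eq_mul,
    Pi.mul_apply] at e'
  have e2 : (fun z => f1 z * f2 z * f3 z * f4 z) = f1 * f2 * f3 * f4 := by
    funext z; rfl
  rw [e2, e']
  ring

lemma core (s : ℂ) (B : Set ℂ) (hB : IsOpen B) (φ : ℂ → ℝ) (hφ : TF B φ) :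
    ∃ C0 : ℝ, 0 ≤ C0 ∧ ∀ (h : ℝ), 0 < h → ∀ f1 f2 f3 f4 g1 g2 g3 g4 : ℂ → ℂ,
      ContDiffOn ℝ ∞ f1 B → ContDiffOn ℝ ∞ f2 B → ContDiffOn ℝ ∞ f3 B → ContDiffOn ℝ ∞ f4 B →
      ContinuousOn g1 B → ContinuousOn g2 B → ContinuousOn g3 B → ContinuousOn g4 B →
      (∀ z ∈ B, (h : ℂ) * (dx f1 z + s * dy f1 z) = g1 z) →
      (∀ z ∈ B, (h : ℂ) * (dx f2 z + s * dy f2 z) = g2 z) →
      (∀ z ∈ B, (h : ℂ) * (dx f3 z + s * dy f3 z) = g3 z) →
      (∀ z ∈ B, (h : ℂ) * (dx f4 z + s * dy f4 z) = g4 z) →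
      ‖(∫ z, (φ z : ℂ) * (g1 z * f2 z * f3 z * f4 z)) + (∫ z, (φ z : ℂ) * (f1 z * g2 z * f3 z * f4 z))
        + (∫ z, (φ z : ℂ) * (f1 z * f2 z * g3 z * f4 z))
        + (∫ z, (φ z : ℂ) * (f1 z * f2 z * f3 z * g4 z))‖ ≤
      h * C0 * ((∫ z in tsupport φ, ‖f1 z‖ ^ 4) + (∫ z in tsupport φ, ‖f2 z‖ ^ 4)
        + (∫ z in tsupport φ, ‖f3 z‖ ^ 4) + ∫ z in tsupport φ, ‖f4 z‖ ^ 4) := by
  obtain ⟨hφs, hφc, hφB⟩ := hφ
  set ψ : ℂ → ℂ := fun z => (φ z : ℂ) with hψdef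
  have hψs : ContDiff ℝ ∞ ψ := Complex.ofRealCLM.contDiff.comp hφs
  have hψc : HasCompactSupport ψ := hφc.comp_left (g := fun x : ℝ => (x : ℂ)) (by simp)
  have hψt : tsupport ψ ⊆ tsupport φ := by
    refine closure_mono ?_
    intro z hz hz'
    exact hz (by simp [hψdef, hz'])
  have hψB : tsupport ψ ⊆ B := hψt.trans hφB
  have hd : ∀ v : ℂ, Continuous (fun z => fderiv ℝ ψ z v) := fun v =>
    (hψs.continuous_fderiv (by simp)).clm_apply continuous_const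
  have hdc : ∀ v : ℂ, HasCompactSupport (fun z => fderiv ℝ ψ z v) := fun v =>
    hψc.fderiv_apply (𝕜 := ℝ) v
  have hdt : ∀ v : ℂ, tsupport (fun z => fderiv ℝ ψ z v) ⊆ tsupport ψ := fun v =>
    tsupport_fderiv_apply_subset ℝ v
  -- bound
  obtain ⟨C0, hC0⟩ := ((hd 1).add (continuous_const.mul (hd I) : Continuous
      (fun z => s * fderiv ℝ ψ z I))).bounded_above_of_compact_support
    ((hdc 1).add ((hdc I).mul_left (f := fun _ => s)))
  have hC0' : 0 ≤ C0 := le_trans (norm_nonneg _) (hC0 0)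
  refine ⟨C0, hC0', ?_⟩
  intro h hh f1 f2 f3 f4 g1 g2 g3 g4 c1 c2 c3 c4 k1 k2 k3 k4 e1 e2 e3 e4
  set G : ℂ → ℂ := fun z => f1 z * f2 z * f3 z * f4 z with hG
  have cG : ContDiffOn ℝ ∞ G B := ((c1.mul c2).mul c3).mul c4
  have dB : ∀ {f : ℂ → ℂ}, ContDiffOn ℝ ∞ f B → ∀ z ∈ B, DifferentiableAt ℝ f z := by
    intro f hf z hz
    exact (hf.differentiableOn (by simp)).differentiableAt (hB.mem_nhds hz)
  have cdG : ∀ v : ℂ, ContinuousOn (fun z => fderiv ℝ G z v) B := by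
    intro v
    exact (cG.continuousOn_fderiv_of_isOpen hB (by simp)).clm_apply continuousOn_const
  -- integration by parts
  have ibp : ∀ v : ℂ, ∫ z, ψ z * fderiv ℝ G z v = - ∫ z, fderiv ℝ ψ z v * G z := by
    intro v
    refine integral_mul_fderiv_eq_neg_fderiv_mul_of_integrable ?_ ?_ ?_ ?_ ?_
    · exact int_mul hB (hd v) (hdc v) ((hdt v).trans hψB) cG.continuousOn
    · exact int_mul hB hψs.continuous hψc hψB (cdG v)
    · exact int_mul hB hψs.continuous hψc hψB cG.continuousOn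
    · intro z _
      exact (hψs.differentiable (by simp)) z
    · intro z hz
      exact dB cG z (hψB hz)
  have i1 : Integrable (fun z => ψ z * (g1 z * f2 z * f3 z * f4 z)) :=
    int_mul hB hψs.continuous hψc hψB
      (((k1.mul c2.continuousOn).mul c3.continuousOn).mul c4.continuousOn)
  have i2 : Integrable (fun z => ψ z * (f1 z * g2 z * f3 z * f4 z)) :=
    int_mul hB hψs.continuous hψc hψB
      (((c1.continuousOn.mul k2).mul c3.continuousOn).mul c4.continuousOn)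
  have i3 : Integrable (fun z => ψ z * (f1 z * f2 z * g3 z * f4 z)) :=
    int_mul hB hψs.continuous hψc hψB
      (((c1.continuousOn.mul c2.continuousOn).mul k3).mul c4.continuousOn)
  have i4 : Integrable (fun z => ψ z * (f1 z * f2 z * f3 z * g4 z)) :=
    int_mul hB hψs.continuous hψc hψB
      (((c1.continuousOn.mul c2.continuousOn).mul c3.continuousOn).mul k4)
  have hsum : (∫ z, ψ z * (g1 z * f2 z * f3 z * f4 z)) + (∫ z, ψ z * (f1 z * g2 z * f3 z * f4 z))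
        + (∫ z, ψ z * (f1 z * f2 z * g3 z * f4 z)) + (∫ z, ψ z * (f1 z * f2 z * f3 z * g4 z)) =
      - ∫ z, (h : ℂ) * ((fderiv ℝ ψ z 1 + s * fderiv ℝ ψ z I) * G z) := by
    have i12 : Integrable (fun z => ψ z * (g1 z * f2 z * f3 z * f4 z) +
        ψ z * (f1 z * g2 z * f3 z * f4 z)) := i1.add i2
    have i123 : Integrable (fun z => ψ z * (g1 z * f2 z * f3 z * f4 z) +
        ψ z * (f1 z * g2 z * f3 z * f4 z) + ψ z * (f1 z * f2 z * g3 z * f4 z)) := i12.add i3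
    rw [← integral_add i1 i2, ← integral_add i12 i3, ← integral_add i123 i4]
    have step : ∀ z, ψ z * (g1 z * f2 z * f3 z * f4 z) + ψ z * (f1 z * g2 z * f3 z * f4 z) +
        ψ z * (f1 z * f2 z * g3 z * f4 z) + ψ z * (f1 z * f2 z * f3 z * g4 z) =
        (h : ℂ) * (ψ z * fderiv ℝ G z 1) + (h : ℂ) * (s * (ψ z * fderiv ℝ G z I)) := by
      intro z
      by_cases hz : z ∈ B
      · rw [fd4 (dB c1 z hz) (dB c2 z hz) (dB c3 z hz) (dB c4 z hz),
          fd4 (dB c1 z hz) (dB c2 z hz) (dB c3 z hz) (dB c4 z hz)]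
        rw [← e1 z hz, ← e2 z hz, ← e3 z hz, ← e4 z hz]
        simp only [dx, dy]
        ring
      · have h0 : ψ z = 0 := image_eq_zero_of_notMem_tsupport (fun h' => hz (hψB h'))
        rw [h0]; ring
    have : (∫ z, (ψ z * (g1 z * f2 z * f3 z * f4 z) + ψ z * (f1 z * g2 z * f3 z * f4 z) +
        ψ z * (f1 z * f2 z * g3 z * f4 z) + ψ z * (f1 z * f2 z * f3 z * g4 z))) =
        ∫ z, ((h : ℂ) * (ψ z * fderiv ℝ G z 1) + (h : ℂ) * (s * (ψ z * fderiv ℝ G z I))) :=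
      integral_congr_ae (Eventually.of_forall step)
    rw [this]
    have j1 : Integrable (fun z => ψ z * fderiv ℝ G z 1) :=
      int_mul hB hψs.continuous hψc hψB (cdG 1)
    have j2 : Integrable (fun z => ψ z * fderiv ℝ G z I) :=
      int_mul hB hψs.continuous hψc hψB (cdG I)
    have l1 : Integrable (fun z => fderiv ℝ ψ z 1 * G z) :=
      int_mul hB (hd 1) (hdc 1) ((hdt 1).trans hψB) cG.continuousOn
    have l2 : Integrable (fun z => fderiv ℝ ψ z I * G z) :=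
      int_mul hB (hd I) (hdc I) ((hdt I).trans hψB) cG.continuousOn
    rw [integral_add (j1.const_mul _) ((j2.const_mul _).const_mul _), integral_const_mul,
      integral_const_mul, integral_const_mul, ibp 1, ibp I]
    have r : (fun z => (h : ℂ) * ((fderiv ℝ ψ z 1 + s * fderiv ℝ ψ z I) * G z)) =
        fun z => (h : ℂ) * (fderiv ℝ ψ z 1 * G z) + (h : ℂ) * (s * (fderiv ℝ ψ z I * G z)) := by
      funext z; ring
    rw [r, integral_add (l1.const_mul _) ((l2.const_mul _).const_mul _), integral_const_mul,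
      integral_const_mul, integral_const_mul]
    ring
  rw [hsum, norm_neg]
  -- restrict to K
  have hK : IsCompact (tsupport φ) := hφc
  have hres : ∫ z, (h : ℂ) * ((fderiv ℝ ψ z 1 + s * fderiv ℝ ψ z I) * G z) =
      ∫ z in tsupport φ, (h : ℂ) * ((fderiv ℝ ψ z 1 + s * fderiv ℝ ψ z I) * G z) := by
    symm
    refine setIntegral_eq_integral_of_forall_compl_eq_zero ?_
    intro z hz
    have h1 : fderiv ℝ ψ z 1 = 0 :=
      image_eq_zero_of_notMem_tsupport (f := fun z => fderiv ℝ ψ z 1)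
        (fun h' => hz (hψt (hdt 1 h')))
    have h2 : fderiv ℝ ψ z I = 0 :=
      image_eq_zero_of_notMem_tsupport (f := fun z => fderiv ℝ ψ z I)
        (fun h' => hz (hψt (hdt I h')))
    rw [h1, h2]; simp
  rw [hres]
  have q : ∀ {f : ℂ → ℂ}, ContDiffOn ℝ ∞ f B →
      IntegrableOn (fun z => ‖f z‖ ^ 4) (tsupport φ) := by
    intro f hf
    exact (((hf.continuousOn.mono hφB).norm).pow 4).integrableOn_compact hK
  have hsq : (∫ z in tsupport φ, ‖f1 z‖ ^ 4) + (∫ z in tsupport φ, ‖f2 z‖ ^ 4)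
        + (∫ z in tsupport φ, ‖f3 z‖ ^ 4) + (∫ z in tsupport φ, ‖f4 z‖ ^ 4) =
      ∫ z in tsupport φ, (‖f1 z‖ ^ 4 + ‖f2 z‖ ^ 4 + ‖f3 z‖ ^ 4 + ‖f4 z‖ ^ 4) := by
    have q12 : IntegrableOn (fun z => ‖f1 z‖ ^ 4 + ‖f2 z‖ ^ 4) (tsupport φ) := (q c1).add (q c2)
    have q123 : IntegrableOn (fun z => ‖f1 z‖ ^ 4 + ‖f2 z‖ ^ 4 + ‖f3 z‖ ^ 4) (tsupport φ) :=
      q12.add (q c3)
    rw [← integral_add (q c1) (q c2), ← integral_add q12 (q c3),
      ← integral_add q123 (q c4)]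
  rw [hsq, ← integral_const_mul]
  refine norm_integral_le_of_norm_le ((((((q c1).add (q c2)).add (q c3)).add (q c4))).const_mul _) ?_
  refine Eventually.of_forall fun z => ?_
  rw [norm_mul, norm_mul, Complex.norm_real, Real.norm_of_nonneg hh.le]
  have b1 : ‖fderiv ℝ ψ z 1 + s * fderiv ℝ ψ z I‖ ≤ C0 := hC0 z
  have b2 : ‖G z‖ ≤ ‖f1 z‖ ^ 4 + ‖f2 z‖ ^ 4 + ‖f3 z‖ ^ 4 + ‖f4 z‖ ^ 4 := by
    rw [hG]
    simp only [norm_mul]
    exact four _ _ _ _ (norm_nonneg _) (norm_nonneg _) (norm_nonneg _) (norm_nonneg _)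
  rw [mul_assoc]
  refine mul_le_mul_of_nonneg_left ?_ hh.le
  exact mul_le_mul b1 b2 (norm_nonneg _) hC0'

lemma null_of (h : ℕ → ℝ) (hpos : ∀ n, 0 < h n) (hl : Tendsto h atTop (𝓝 0)) (C0 M : ℝ)
    (hC0 : 0 ≤ C0) (F : ℕ → ℂ) (Q : ℕ → ℝ) (hQ : ∀ᶠ n in atTop, Q n ≤ M)
    (hF : ∀ n, ‖F n‖ ≤ h n * C0 * Q n) : Null F := by
  refine squeeze_zero_norm' (a := fun n => h n * (C0 * M)) ?_ ?_
  · filter_upwards [hQ] with n hn
    refine (hF n).trans ?_
    rw [mul_assoc]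
    exact mul_le_mul_of_nonneg_left (mul_le_mul_of_nonneg_left hn hC0) (hpos n).le
  · simpa using hl.mul_const (C0 * M)

theorem st (hW : SW) : ST := by
  intro B hB h u hs hl hBd φ hφ a b c d
  obtain ⟨Ca, ha⟩ := hBd a (tsupport φ) hφ.2.1 hφ.2.2
  obtain ⟨Cb, hb⟩ := hBd b (tsupport φ) hφ.2.1 hφ.2.2
  obtain ⟨Cc, hc⟩ := hBd c (tsupport φ) hφ.2.1 hφ.2.2
  obtain ⟨Cd, hd⟩ := hBd d (tsupport φ) hφ.2.1 hφ.2.2
  have hQ : ∀ᶠ n in atTop, (∫ z in tsupport φ, ‖W (h n) (u n) a z‖ ^ 4) +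
      (∫ z in tsupport φ, ‖W (h n) (u n) b z‖ ^ 4) +
      (∫ z in tsupport φ, ‖W (h n) (u n) c z‖ ^ 4) +
      (∫ z in tsupport φ, ‖W (h n) (u n) d z‖ ^ 4) ≤ Ca + Cb + Cc + Cd := by
    filter_upwards [ha, hb, hc, hd] with n h1 h2 h3 h4
    linarith
  have hpos : ∀ n, 0 < h n := fun n => (hs n).hpos
  constructor
  · obtain ⟨C0, hC0, H⟩ := core (-I) B hB φ hφ
    refine null_of h hpos hl C0 _ hC0 _ _ hQ ?_
    intro n
    obtain ⟨w1, w2, w3, w4⟩ := hW B hB (h n) (u n) (hs n)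
    have key : ∀ k : ℤ, ∀ z ∈ B, ((h n : ℝ) : ℂ) * (dx (W (h n) (u n) k) z +
        (-I) * dy (W (h n) (u n) k) z) = W (h n) (u n) (k + 1) z := by
      intro k z hz
      rw [← w2 k z hz, Dp]
      ring
    exact H (h n) (hpos n) _ _ _ _ _ _ _ _ (w1 a) (w1 b) (w1 c) (w1 d)
      (w1 (a + 1)).continuousOn (w1 (b + 1)).continuousOn (w1 (c + 1)).continuousOn
      (w1 (d + 1)).continuousOn (key a) (key b) (key c) (key d)
  · obtain ⟨C0, hC0, H⟩ := core I B hB φ hφ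
    refine null_of h hpos hl C0 _ hC0 _ _ hQ ?_
    intro n
    obtain ⟨w1, w2, w3, w4⟩ := hW B hB (h n) (u n) (hs n)
    have key : ∀ k : ℤ, ∀ z ∈ B, ((h n : ℝ) : ℂ) * (dx (W (h n) (u n) k) z +
        I * dy (W (h n) (u n) k) z) = - W (h n) (u n) (k - 1) z := by
      intro k z hz
      rw [← w3 k z hz, Dm]
    have H' := H (h n) (hpos n) _ _ _ _ (fun z => - W (h n) (u n) (a - 1) z)
      (fun z => - W (h n) (u n) (b - 1) z) (fun z => - W (h n) (u n) (c - 1) z)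
      (fun z => - W (h n) (u n) (d - 1) z) (w1 a) (w1 b) (w1 c) (w1 d)
      (w1 (a - 1)).continuousOn.neg (w1 (b - 1)).continuousOn.neg (w1 (c - 1)).continuousOn.neg
      (w1 (d - 1)).continuousOn.neg (key a) (key b) (key c) (key d)
    have e : MM φ h u (a-1) b c d n + MM φ h u a (b-1) c d n + MM φ h u a b (c-1) d n
        + MM φ h u a b c (d-1) n =
        -((∫ z, (φ z : ℂ) * (-W (h n) (u n) (a - 1) z * W (h n) (u n) b z * W (h n) (u n) c z *
          W (h n) (u n) d z)) +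
        (∫ z, (φ z : ℂ) * (W (h n) (u n) a z * -W (h n) (u n) (b - 1) z * W (h n) (u n) c z *
          W (h n) (u n) d z)) +
        (∫ z, (φ z : ℂ) * (W (h n) (u n) a z * W (h n) (u n) b z * -W (h n) (u n) (c - 1) z *
          W (h n) (u n) d z)) +
        (∫ z, (φ z : ℂ) * (W (h n) (u n) a z * W (h n) (u n) b z * W (h n) (u n) c z *
          -W (h n) (u n) (d - 1) z))) := by
      simp only [MM, mul_neg, neg_mul, integral_neg]
      ring
    rw [e, norm_neg]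
    exact H'

end Pool.Agent.W379.RW.T
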